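import Mathlib

set_option autoImplicit false

namespace Pool.Agent.Results.MP_2e17cf_an.Counter

open Matrix Filter Topology

/-- objective `½ xᵀQx + cᵀx` -/
noncomputable def obj {n : ℕ} (Q : Matrix (Fin n) (Fin n) ℝ) (c x : Fin n → ℝ) : ℝ :=
  1 / 2 * (x ⬝ᵥ Q *ᵥ x) + c ⬝ᵥ x

/-- constraint `xᵀAx + 2bᵀx + d` -/
def con {n : ℕ} (A : Matrix (Fin n) (Fin n) ℝ) (b : Fin n → ℝ) (d : ℝ) (x : Fin n → ℝ) : ℝ :=
  x ⬝ᵥ A *ᵥ x + 2 * (b ⬝ᵥ x) + d

/-- gradient of the constraint (for symmetric `A`) -/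
def gradCon {n : ℕ} (A : Matrix (Fin n) (Fin n) ℝ) (b x : Fin n → ℝ) : Fin n → ℝ :=
  (2 : ℝ) • (A *ᵥ x) + (2 : ℝ) • b

/-- local minimizer on `F` that is not a global minimizer on `F` -/
def LocNonGlob {n : ℕ} (f : (Fin n → ℝ) → ℝ) (F : Set (Fin n → ℝ)) (x : Fin n → ℝ) : Prop :=
  x ∈ F ∧ IsLocalMinOn f F x ∧ ¬ IsMinOn f F x

lemma no_locmin {f : (Fin 2 → ℝ) → ℝ} {F : Set (Fin 2 → ℝ)} {p : Fin 2 → ℝ}
    (γ : ℝ → Fin 2 → ℝ) (hγ : ContinuousAt γ 0) (h0 : γ 0 = p)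
    (h : ∀ᶠ t in 𝓝[>] (0 : ℝ), γ t ∈ F ∧ f (γ t) < f p) : ¬ IsLocalMinOn f F p := by
  intro hm
  have h1 : Tendsto γ (𝓝[>] 0) (𝓝[F] p) := by
    refine tendsto_nhdsWithin_iff.2 ⟨?_, h.mono fun t ht => ht.1⟩
    rw [← h0]; exact hγ.tendsto.mono_left nhdsWithin_le_nhds
  obtain ⟨t, h2, h3⟩ := ((h1.eventually hm).and h).exists
  exact absurd h2 (not_le.2 h3.2)

theorem result : ∃ (n : ℕ) (Q A₁ A₂ : Matrix (Fin n) (Fin n) ℝ) (c b₁ b₂ : Fin n → ℝ)
    (d₁ d₂ : ℝ), 1 ≤ n ∧ Q.IsSymm ∧ A₁.PosDef ∧ A₂.PosDef ∧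
    (∃ y, LocNonGlob (obj Q c) {x | con A₁ b₁ d₁ x ≤ 0 ∧ con A₂ b₂ d₂ x ≤ 0} y) ∧
    ∃ x, (con A₁ b₁ d₁ x ≤ 0 ∧ con A₂ b₂ d₂ x ≤ 0) ∧
      (∃ μ₁ μ₂ : ℝ, 0 ≤ μ₁ ∧ 0 ≤ μ₂ ∧
        Q *ᵥ x + c + μ₁ • gradCon A₁ b₁ x + μ₂ • gradCon A₂ b₂ x = 0 ∧
        μ₁ * con A₁ b₁ d₁ x = 0 ∧ μ₂ * con A₂ b₂ d₂ x = 0) ∧
      ¬ IsMinOn (obj Q c) {x | con A₁ b₁ d₁ x ≤ 0 ∧ con A₂ b₂ d₂ x ≤ 0} x ∧
      ∃ δ : ℝ, 0 < δ ∧ ∀ y,
        LocNonGlob (obj Q c) {x | con A₁ b₁ d₁ x ≤ 0 ∧ con A₂ b₂ d₂ x ≤ 0} y →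
          obj Q c x + δ ≤ obj Q c y := by
  have hf : ∀ x : Fin 2 → ℝ, obj (diagonal ![-2, -2]) ![2, 0] x =
      -(x 0) ^ 2 - (x 1) ^ 2 + 2 * x 0 := by
    intro x; simp [obj, dotProduct, mulVec_diagonal, Fin.sum_univ_two]; ring
  have h1 : ∀ x : Fin 2 → ℝ, con (diagonal ![1, 1]) ![-39 / 20, 0] (-169 / 25) x =
      (x 0) ^ 2 + (x 1) ^ 2 - 39 / 10 * x 0 - 169 / 25 := by
    intro x; simp [con, dotProduct, mulVec_diagonal, Fin.sum_univ_two]; ring
  have h2 : ∀ x : Fin 2 → ℝ, con (diagonal ![1, 4]) ![0, 0] (-4) x =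
      (x 0) ^ 2 + 4 * (x 1) ^ 2 - 4 := by
    intro x; simp [con, dotProduct, mulVec_diagonal, Fin.sum_univ_two]; ring
  refine ⟨2, diagonal ![-2, -2], diagonal ![1, 1], diagonal ![1, 4], ![2, 0], ![-39 / 20, 0],
    ![0, 0], -169 / 25, -4, by norm_num, isSymm_diagonal _, ?_, ?_, ?_⟩
  · exact PosDef.diagonal fun i => by fin_cases i <;> simp
  · exact PosDef.diagonal fun i => by fin_cases i <;> simp
  set F : Set (Fin 2 → ℝ) := {x | con (diagonal ![1, 1]) ![-39 / 20, 0] (-169 / 25) x ≤ 0 ∧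
    con (diagonal ![1, 4]) ![0, 0] (-4) x ≤ 0} with hF
  set f := obj (diagonal ![-2, -2]) ![(2 : ℝ), 0] with hfd
  have hm : ∀ x, x ∈ F ↔ (x 0) ^ 2 + (x 1) ^ 2 - 39 / 10 * x 0 - 169 / 25 ≤ 0 ∧
      (x 0) ^ 2 + 4 * (x 1) ^ 2 - 4 ≤ 0 := by
    intro x; rw [hF, Set.mem_ofPred_eq, h1, h2]
  have hc : ![-6 / 5, 4 / 5] ∈ F := by rw [hm]; simp; norm_num
  have hc' : ![-6 / 5, -4 / 5] ∈ F := by rw [hm]; simp; norm_num
  have hng : ∀ x, -112 / 25 < f x → ¬ IsMinOn f F x := by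
    intro x hx h
    have := h hc
    simp only [Set.mem_ofPred_eq] at this
    rw [hf ![-6 / 5, 4 / 5]] at this
    simp at this; linarith
  refine ⟨⟨![2, 0], by rw [hm]; simp; norm_num, ?_, hng _ (by rw [hf]; simp; norm_num)⟩,
    ![-13 / 10, 0], ?_, ⟨46 / 65, 0, by norm_num, le_rfl, ?_, ?_, by simp⟩,
    hng _ (by rw [hf]; simp; norm_num), 1, one_pos, ?_⟩
  · have : ∀ᶠ x : Fin 2 → ℝ in 𝓝 ![2, 0], 1 < x 0 :=
      (continuous_apply 0).continuousAt.eventually (lt_mem_nhds (by simp))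
    filter_upwards [nhdsWithin_le_nhds this, self_mem_nhdsWithin] with x hx hxF
    obtain ⟨-, b⟩ := (hm x).1 hxF
    rw [hf, hf]; simp
    have : x 0 ≤ 2 := by nlinarith [sq_nonneg (x 1)]
    nlinarith
  · rw [h1, h2]; simp; norm_num
  · ext i; fin_cases i <;> simp [gradCon] <;> norm_num
  · rw [h1]; simp; norm_num
  · rintro p ⟨hp, hl, hg⟩
    obtain ⟨a, b⟩ := (hm p).1 hp
    rw [hf, hf]
    simp only [Matrix.cons_val_zero, Matrix.cons_val_one, Matrix.cons_val_fin_one]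
    by_contra hlt
    push Not at hlt
    have hx : p 0 < -1 / 2 := by nlinarith
    have pos : ∀ᶠ t in 𝓝[>] (0 : ℝ), 0 < t ∧ t < 1 := by
      filter_upwards [Ioo_mem_nhdsGT one_pos] with t ht using ht
    rcases b.eq_or_lt with b | b
    · -- on the ellipse
      have hx2 : -6 / 5 ≤ p 0 := by nlinarith
      rcases hx2.eq_or_lt with e | e
      · apply hg
        intro q hq
        obtain ⟨a', b'⟩ := (hm q).1 hq
        simp only [Set.mem_ofPred_eq]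
        rw [hf, hf, ← e]
        have : (p 1) ^ 2 = 16 / 25 := by rw [← e] at b; linarith
        rw [this]
        rcases le_total (q 0) (-6 / 5) with h | h
        · nlinarith
        · have : q 0 ≤ 2 := by nlinarith [sq_nonneg (q 1)]
          nlinarith
      · have seg : ∀ s : ℝ, s ^ 2 = 16 / 25 → 0 ≤ s * p 1 → False := by
          intro s hs hsp
          refine no_locmin (fun t => ![p 0 + t * (-6 / 5 - p 0), p 1 + t * (s - p 1)])
            (by fun_prop) (by ext i; fin_cases i <;> simp) ?_ hl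
          filter_upwards [pos] with t ⟨t0, t1⟩
          rw [hm, hf, hf]
          simp only [Matrix.cons_val_zero, Matrix.cons_val_one, Matrix.cons_val_fin_one]
          have t2 : 0 ≤ t * (1 - t) := by nlinarith
          have k1 : 0 ≤ t * (1 - t) * ((-6 / 5 - p 0) ^ 2 + (s - p 1) ^ 2) := by positivity
          have k2 : 0 ≤ t * (1 - t) * ((-6 / 5 - p 0) ^ 2 + 4 * (s - p 1) ^ 2) := by positivity
          have k3 : 16 / 25 ≤ s * p 1 := by
            have : (16 / 25) ^ 2 ≤ (s * p 1) ^ 2 := by rw [mul_pow, hs]; nlinarith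
            exact le_of_sq_le_sq (by simpa using this) hsp |>.trans' le_rfl
          have k4 : 0 < (p 0 - 1) * (-6 / 5 - p 0) + p 1 * (s - p 1) := by nlinarith
          refine ⟨⟨?_, ?_⟩, ?_⟩
          · have k5 := mul_nonpos_of_nonneg_of_nonpos (sub_nonneg.2 t1.le) a
            have : (p 0 + t * (-6 / 5 - p 0)) ^ 2 + (p 1 + t * (s - p 1)) ^ 2 -
                39 / 10 * (p 0 + t * (-6 / 5 - p 0)) - 169 / 25 =
                (1 - t) * (p 0 ^ 2 + p 1 ^ 2 - 39 / 10 * p 0 - 169 / 25) -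
                t * (1 - t) * ((-6 / 5 - p 0) ^ 2 + (s - p 1) ^ 2) := by
              linear_combination t * hs
            linarith
          · have : (p 0 + t * (-6 / 5 - p 0)) ^ 2 + 4 * (p 1 + t * (s - p 1)) ^ 2 - 4 =
                - (t * (1 - t) * ((-6 / 5 - p 0) ^ 2 + 4 * (s - p 1) ^ 2)) := by
              linear_combination 4 * t * hs + (1 - t) * b
            linarith
          · have : -(p 0 + t * (-6 / 5 - p 0)) ^ 2 - (p 1 + t * (s - p 1)) ^ 2 +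
                2 * (p 0 + t * (-6 / 5 - p 0)) = -p 0 ^ 2 - p 1 ^ 2 + 2 * p 0 -
                2 * (t * ((p 0 - 1) * (-6 / 5 - p 0) + p 1 * (s - p 1))) -
                (t * (-6 / 5 - p 0)) ^ 2 - (t * (s - p 1)) ^ 2 := by ring
            linarith [mul_pos t0 k4, sq_nonneg (t * (-6 / 5 - p 0)), sq_nonneg (t * (s - p 1))]
        rcases le_total 0 (p 1) with h | h
        · exact seg (4 / 5) (by norm_num) (by positivity)
        · exact seg (-4 / 5) (by norm_num) (by nlinarith)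
    · have rot : ∀ s : ℝ, s ^ 2 = 1 → 0 ≤ s * p 1 → False := by
        intro s hs hsp
        let γ : ℝ → Fin 2 → ℝ := fun t =>
          ![39 / 20 + ((1 - t ^ 2) * (p 0 - 39 / 20) + 2 * t * s * p 1) / (1 + t ^ 2),
            ((1 - t ^ 2) * p 1 - 2 * t * s * (p 0 - 39 / 20)) / (1 + t ^ 2)]
        have hγ : Continuous γ := by
          refine continuous_pi fun i => ?_
          fin_cases i <;> simp only [γ] <;> simp <;>
            fun_prop (disch := intro t; positivity)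
        have hγ0 : γ 0 = p := by ext i; fin_cases i <;> simp [γ]
        refine no_locmin γ hγ.continuousAt hγ0 ?_ hl
        have ev : ∀ᶠ t in 𝓝 (0 : ℝ), (γ t 0) ^ 2 + 4 * (γ t 1) ^ 2 - 4 < 0 := by
          have : Continuous fun t => (γ t 0) ^ 2 + 4 * (γ t 1) ^ 2 - 4 := by fun_prop
          exact this.continuousAt.eventually (gt_mem_nhds (by simpa [hγ0] using b))
        filter_upwards [pos, nhdsWithin_le_nhds ev] with t ⟨t0, _⟩ h3
        have hD : 0 < 1 + t ^ 2 := by positivity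
        have e1 : (γ t 0 - 39 / 20) ^ 2 + (γ t 1) ^ 2 = (p 0 - 39 / 20) ^ 2 + (p 1) ^ 2 := by
          simp only [γ, Matrix.cons_val_zero, Matrix.cons_val_one, Matrix.cons_val_fin_one]
          field_simp
          linear_combination (4 * t ^ 2 * (400 * p 1 ^ 2 + (20 * p 0 - 39) ^ 2)) * hs
        have e2 : p 0 < γ t 0 := by
          simp only [γ, Matrix.cons_val_zero]
          rw [← sub_lt_iff_lt_add', lt_div_iff₀ hD]
          nlinarith [mul_nonneg t0.le hsp, mul_pos (pow_pos t0 2) (show 0 < 39 / 20 - p 0 by linarith)]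
        rw [hm, hf, hf]
        refine ⟨⟨by linarith, h3.le⟩, by linarith⟩
      rcases le_total 0 (p 1) with h | h
      · exact rot 1 (by norm_num) (by simpa using h)
      · exact rot (-1) (by norm_num) (by simpa using h)

end Pool.Agent.Results.MP_2e17cf_an.Counter
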